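import Pool.Agent.Helper69.TPF.St3
import Mathlib.CategoryTheory.CofilteredSystem
import Mathlib.CategoryTheory.Functor.OfSequence

/-!
# Project TPF, module KNA: Koenig lemma for the towers of finite levels
-/

set_option autoImplicit false

open scoped commutatorElement

namespace Pool.Agent.Helper81.TPF

open Pool.Agent.Helper6.TS Pool.Agent.Helper69.TPF CategoryTheory

/-- Koenig lemma for sequences of finite nonempty types -/
theorem koenig (X : ℕ → Type) (hfin : ∀ n, Finite (X n)) (hne : ∀ n, Nonempty (X n))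
    (f : ∀ n, X (n + 1) → X n) : ∃ x : ∀ n, X n, ∀ n, f n (x (n + 1)) = x n := by
  let F : ℕᵒᵖ ⥤ Type := Functor.ofOpSequence (X := X) (fun n => (↾(f n)))
  have h1 : ∀ j : ℕᵒᵖ, Finite (F.obj j) := fun j => hfin j.unop
  have h2 : ∀ j : ℕᵒᵖ, Nonempty (F.obj j) := fun j => hne j.unop
  obtain ⟨u, hu⟩ := nonempty_sections_of_finite_inverse_system F
  refine ⟨fun n => u (Opposite.op n), fun n => ?_⟩
  have h3 := hu (homOfLE (Nat.le_succ n)).op
  have h4 : F.map (homOfLE (Nat.le_succ n)).op = ↾(f n) :=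
    Functor.ofOpSequence_map_homOfLE_succ _ n
  rw [h4] at h3
  exact h3

theorem fgSurf (g : ℕ) : Group.FG (Surf g) :=
  Group.fg_of_surjective (f := PresentedGroup.mk {relator g}) (PresentedGroup.mk_surjective _)

theorem lproj_surjective (G : Type) [Group G] (n : ℕ) : Function.Surjective (lproj G n) := by
  intro x
  obtain ⟨z, rfl⟩ := QuotientGroup.mk_surjective x
  exact ⟨QuotientGroup.mk z, rfl⟩

theorem lmap_lproj {G H : Type} [Group G] [Group H] (f : G →* H) (n : ℕ) (x : Lq G (n + 1)) :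
    lmap f n (lproj G n x) = lproj H n (lmap f (n + 1) x) := by
  obtain ⟨z, rfl⟩ := QuotientGroup.mk_surjective x
  rfl

theorem Gen_map {ι G H : Type} [Group G] [Group H] {y : ι → G} (hy : Gen y) (f : G →* H)
    (hf : Function.Surjective f) : Gen fun i => f (y i) := by
  unfold Gen at *
  have h1 : Set.range (fun i => f (y i)) = f '' Set.range y := by
    rw [← Set.range_comp]; rfl
  rw [h1, ← MonoidHom.map_closure, hy, Subgroup.map_top_of_surjective f hf]

/-- the conditions at level `n` -/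
def Good {g : ℕ} (f : Fin 3 → (Surf g →* FreeGroup (Fin g))) (t : Fin g → Fin 3) (n : ℕ)
    (y : Fin g × Bool → Lq (Surf g) n) : Prop :=
  Gen y ∧ Rel y = 1 ∧ ∀ s j, lmap (f j) n (y (s, decide (t s = j))) = 1

theorem Good_of_LevStd {g : ℕ} {f : Fin 3 → (Surf g →* FreeGroup (Fin g))} {t : Fin g → Fin 3}
    {n : ℕ} {Y : Fin g × Bool → Surf g} (h : LevStd f t n Y) :
    Good f t n fun i => (QuotientGroup.mk (Y i) : Lq (Surf g) n) := by
  refine ⟨genMod_iff_gen.1 h.1, ?_, fun s j => ?_⟩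
  · have h1 := Rel_map (QuotientGroup.mk' (lev (Surf g) n)) Y
    have h2 : QuotientGroup.mk' (lev (Surf g) n) (Rel Y) = 1 :=
      (QuotientGroup.eq_one_iff _).2 h.2.1
    rw [h2] at h1
    exact h1.symm
  · exact (QuotientGroup.eq_one_iff _).2 (h.2.2 s j)

theorem Good_lproj {g : ℕ} {f : Fin 3 → (Surf g →* FreeGroup (Fin g))} {t : Fin g → Fin 3}
    {n : ℕ} {y : Fin g × Bool → Lq (Surf g) (n + 1)} (h : Good f t (n + 1) y) :
    Good f t n fun i => lproj (Surf g) n (y i) := by
  refine ⟨Gen_map h.1 _ (lproj_surjective _ n), ?_, fun s j => ?_⟩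
  · rw [← Rel_map, h.2.1, map_one]
  · rw [lmap_lproj, h.2.2 s j, map_one]

theorem cKNA (lfi : St_LFI) : St_KNA := by
  intro g f t hY
  haveI : Group.FG (Surf g) := fgSurf g
  haveI : ∀ n, Finite (Lq (Surf g) n) := fun n => lfi (Surf g) n
  obtain ⟨x, hx⟩ := koenig (fun n => {y : Fin g × Bool → Lq (Surf g) n // Good f t n y})
    (fun n => inferInstance)
    (fun n => by
      obtain ⟨Y, h⟩ := hY n
      exact ⟨⟨_, Good_of_LevStd h⟩⟩)
    (fun n y => ⟨_, Good_lproj y.2⟩)
  refine ⟨fun n => (x n).1, fun n i => ?_, fun n => (x n).2.1, fun n => (x n).2.2.1,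
    fun n s j => (x n).2.2.2 s j⟩
  exact congrFun (congrArg Subtype.val (hx n)) i

end Pool.Agent.Helper81.TPF
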